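import Mathlib
import Pool.Agent.H542R2.BlockMoment
import Pool.Agent.H542R2.MC.Defs

set_option autoImplicit false

/-!
Project MC: definitions and exact statements of the parts (as `Prop`s).
-/

namespace H542.MC

open Finset

variable {s w n g M : ℕ}

/-- straight-line programs over the inputs `x : Fin n → Bool` with hardwired bits `y : V → Bool`:
a gate is an AND (`op = true`) or OR of the wires `a` and `b`, negated according to `na`, `nb`
(a constant bit or a bit of `y`) -/
structure PG (V : Type) where
  op : Bool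
  a : ℕ
  b : ℕ
  na : Bool ⊕ V
  nb : Bool ⊕ V

/-- value of a bit which is constant or hardwired -/
def lv {V : Type} (y : V → Bool) : Bool ⊕ V → Bool
  | .inl c => c
  | .inr v => y v

/-- value of a gate -/
def PG.val {V : Type} (G : PG V) (y : V → Bool) (e : ℕ → Bool) : Bool :=
  if G.op = true then xor (e G.a) (lv y G.na) && xor (e G.b) (lv y G.nb)
  else xor (e G.a) (lv y G.na) || xor (e G.b) (lv y G.nb)

/-- values of the wires of a program; the list contains the gates in reverse order (the head is
the last gate), gate number `k` is the wire `n + k` -/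
def pw {V : Type} (y : V → Bool) (x : Fin n → Bool) : List (PG V) → ℕ → Bool
  | [], c => if h : c < n then x ⟨c, h⟩ else false
  | G :: K, c => if c = n + K.length then G.val y (pw y x K) else pw y x K c

/-- every gate reads earlier wires -/
def POK {V : Type} (n : ℕ) : List (PG V) → Prop
  | [] => True
  | G :: K => G.a < n + K.length ∧ G.b < n + K.length ∧ POK n K

/-- CONV: a program with at most `s` gates as a description of a circuit with exactly `s` gates
(the gates `j ≥ K.length` are copies `v AND v` of the preceding wire `n + j - 1`; the addresses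
are written in binary, see `Nat.testBit`, `Nat.sum...`; only negation bits depend on `y`). -/
def ConvProp : Prop := ∀ (V : Type) (n s w : ℕ) (K : List (PG V)), POK n K → K ≠ [] →
    K.length ≤ s → n + s ≤ 2 ^ w → ∃ σ : Bits s w → Bool ⊕ V, ∀ y : V → Bool,
      Valid n (fun b => lv y (σ b)) ∧
      ∀ x : Fin n → Bool, output (fun b => lv y (σ b)) x = pw y x K (n + K.length - 1)

/-- blocks: pairs `(S, R)` with `|S| = g` and `R ⊆ S` -/
abbrev Blk (n g : ℕ) := {p : Finset (Fin n) × Finset (Fin n) // p.1.card = g ∧ p.2 ⊆ p.1}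

/-- the input `x` has the pattern `R` on `S` -/
def Has (x : Fin n → Bool) (p : Blk n g) : Prop := ∀ i ∈ p.1.1, (x i = true ↔ i ∈ p.1.2)

instance (x : Fin n → Bool) (p : Blk n g) : Decidable (Has x p) := by
  unfold Has; infer_instance

/-- parity of the hardwired bits in the blocks whose pattern the input `x` has -/
def parV (x : Fin n → Bool) (y : Blk n g × Fin M → Bool) : Bool :=
  decide (Odd (univ.filter fun v : Blk n g × Fin M => Has x v.1 ∧ y v = true).card)

/-- PROG: a short program computing `parV`.  First gate: the constant false, `x_0 AND NOT x_0`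
(wire `n`); it is also the first value of the accumulator.  Then for every block `p = (S, R)`:
`g` gates for the conjunction of the literals of the pattern, `M` gates for the parity of the
hardwired bits of the block (`(b XOR y_j) OR false`), one AND gate, and three gates which add the
result to the accumulator (the last gate so far). -/
def ProgProp : Prop := ∀ n g M : ℕ, 1 ≤ n → ∃ K : List (PG (Blk n g × Fin M)), POK n K ∧ K ≠ [] ∧
    K.length ≤ Fintype.card (Blk n g) * (M + g + 4) + 1 ∧
    ∀ (y : Blk n g × Fin M → Bool) (x : Fin n → Bool),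
      pw y x K (n + K.length - 1) = parV x y

section general

variable {κ ι : Type} [DecidableEq κ] [Fintype ι] [DecidableEq ι]

/-- elements `i` which lie in exactly one set `A v`, `v ∈ U` -/
def privG (A : κ → Finset ι) (U : Finset κ) : Finset ι :=
  univ.filter fun i => ∃ v ∈ U, i ∈ A v ∧ ∀ v' ∈ U, v' ≠ v → i ∉ A v'

/-- boundary expansion -/
def BExG (A : κ → Finset ι) (u0 : ℕ) : Prop :=
  ∀ U : Finset κ, U.card ≤ u0 → U.card ≤ (privG A U).card

end general

/-- the blocks whose pattern the input `x` has -/
def rowB (n g : ℕ) (x : Fin n → Bool) : Finset (Blk n g) := univ.filter fun p => Has x p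

/-- ISOL: some element of `U` is determined by its values on few coordinates.  (Induction on the
size of `U`: if `U` has two elements, split it at a coordinate where they differ and continue in
the smaller half.) -/
def IsolProp : Prop := ∀ (n : ℕ) (U : Finset (Fin n → Bool)), U.Nonempty →
    ∃ x ∈ U, ∃ S : Finset (Fin n), 2 ^ S.card ≤ U.card ∧
      ∀ x' ∈ U, (∀ i ∈ S, x' i = x i) → x' = x

/-- EXPA: boundary expansion.  (By ISOL: for all `S' ⊇ S` with `|S'| = 2 d` the block
`(S', {i ∈ S' | x i})` is private for `x`; there are `choose (n - |S|) (2 d - |S|)` such sets,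
`|S| ≤ d`, and `choose (n - |S|) (2 d - |S|) ≥ choose (n - d) d ≥ 2 ^ d`.) -/
def ExpaProp : Prop := ∀ n d : ℕ, 3 * d ≤ n → BExG (rowB n (2 * d)) (2 ^ d)

/-- CARD -/
def CardProp : Prop := ∀ n g : ℕ, Fintype.card (Blk n g) = n.choose g * 2 ^ g

/-- NUM: with `x = 2 ^ (δ / 2) - 1`: `choose n k * x ^ k ≤ (1 + x) ^ n = 2 ^ (δ n / 2)` (binomial
theorem), so `choose n k * 2 ^ k ≤ 2 ^ (δ n / 2) * (2 / x) ^ k`, and `(2 / x) ^ k ≤ 2 ^ (δ n / 2)`
for `k ≤ 2 γ n` if `γ` is small (`2 γ log2 (2 / x) ≤ δ / 2`, if `2 / x ≥ 1`; else trivial). -/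
def NumProp : Prop := ∀ δ : ℝ, 0 < δ → ∃ γ : ℝ, 0 < γ ∧ γ ≤ 1 / 3 ∧ ∀ n k : ℕ,
    (k : ℝ) ≤ 2 * γ * n → ((n.choose k * 2 ^ k : ℕ) : ℝ) ≤ (2 : ℝ) ^ (δ * n)

/-- FLIP: restrictions `mv J x y` (see BlockMoment.lean) and `parV` -/
def FlipProp : Prop := ∀ (n g M : ℕ) (J : Blk n g → Fin M) (z : Blk n g × Fin M → Bool)
    (x : Fin n → Bool),
    (∀ y y' : Blk n g → Bool, (∀ p ∈ rowB n g x, y p = y' p) →
      parV x (mv J z y) = parV x (mv J z y')) ∧
    (∀ p ∈ rowB n g x, ∀ y : Blk n g → Bool,
      parV x (mv J z (Function.update y p (!(y p)))) = !(parV x (mv J z y)))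

end H542.MC
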