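import Mathlib
import Pool.Agent.H542R2.MC.Stubs

set_option autoImplicit false

/-!
M_CARD: the number of blocks.
-/

namespace H542.MC

open Finset

theorem m_card : CardProp := by
  intro n g
  have h1 : Fintype.card (Blk n g) =
      (univ.filter (fun p : Finset (Fin n) × Finset (Fin n) =>
        p.1.card = g ∧ p.2 ⊆ p.1)).card := Fintype.card_subtype _
  have h2 : (univ.filter (fun p : Finset (Fin n) × Finset (Fin n) =>
      p.1.card = g ∧ p.2 ⊆ p.1)).card =
      ((powersetCard g (univ : Finset (Fin n))).sigma (fun S => S.powerset)).card := by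
    refine Finset.card_nbij' (fun p => (⟨p.1, p.2⟩ : (_ : Finset (Fin n)) × Finset (Fin n)))
      (fun q => (q.1, q.2)) ?_ ?_ ?_ ?_
    · intro p hp
      have h := (Finset.mem_filter.1 hp).2
      exact Finset.mem_sigma.2 ⟨Finset.mem_powersetCard.2 ⟨Finset.subset_univ _, h.1⟩,
        Finset.mem_powerset.2 h.2⟩
    · intro q hq
      have h := Finset.mem_sigma.1 hq
      exact Finset.mem_filter.2 ⟨Finset.mem_univ _, (Finset.mem_powersetCard.1 h.1).2,
        Finset.mem_powerset.1 h.2⟩
    · intro p _
      rfl
    · intro q _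
      rfl
  rw [h1, h2, Finset.card_sigma]
  have h3 : ∀ S ∈ powersetCard g (univ : Finset (Fin n)), S.powerset.card = 2 ^ g := by
    intro S hS
    rw [Finset.card_powerset, (Finset.mem_powersetCard.1 hS).2]
  rw [Finset.sum_congr rfl h3, Finset.sum_const, Finset.card_powersetCard, Finset.card_univ,
    Fintype.card_fin, smul_eq_mul]

end H542.MC
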