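import Mathlib
import Pool.Agent.H542R2.MC.Stubs

/-! Task M_CONV (helper485): programs as bit descriptions. -/

set_option autoImplicit false

namespace H542.MC

open Finset

namespace MConv

/-- a number below `2 ^ w` is the sum of its binary digits -/
theorem sum_bits (w : ℕ) : ∀ a : ℕ, a < 2 ^ w →
    (∑ t : Fin w, if a.testBit t.val = true then 2 ^ t.val else 0) = a := by
  induction w with
  | zero =>
    intro a ha
    have : a = 0 := by simpa using ha
    subst this
    simp
  | succ w ih =>
    intro a ha
    have h1 : a / 2 < 2 ^ w := by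
      rw [pow_succ] at ha
      omega
    have h2 := ih (a / 2) h1
    rw [Fin.sum_univ_succ]
    have h3 : ∀ t : Fin w, (if a.testBit (t.succ : Fin (w + 1)).val = true then
        2 ^ (t.succ : Fin (w + 1)).val else 0) =
        2 * (if (a / 2).testBit t.val = true then 2 ^ t.val else 0) := by
      intro t
      rw [Fin.val_succ, Nat.testBit_succ]
      split_ifs
      · rw [pow_succ, mul_comm]
      · rfl
    rw [Finset.sum_congr rfl (fun t _ => h3 t), ← Finset.mul_sum, h2]
    have h4 : (if a.testBit (0 : Fin (w + 1)).val = true then 2 ^ (0 : Fin (w + 1)).val else 0) =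
        a % 2 := by
      rw [Fin.val_zero, Nat.testBit_zero]
      rcases Nat.mod_two_eq_zero_or_one a with h | h
      · simp [h]
      · simp [h]
    rw [h4]
    omega

variable {V : Type} {n : ℕ}

/-- gate number `j`; copies of the preceding wire after the end -/
def gt (n : ℕ) : List (PG V) → ℕ → PG V
  | [], j => ⟨true, n + j - 1, n + j - 1, .inl false, .inl false⟩
  | G :: K, j => if j = K.length then G else gt n K j

/-- abstract evaluation -/
def wg (g : ℕ → PG V) (y : V → Bool) (x : Fin n → Bool) : ℕ → ℕ → Bool
  | 0, a => if h : a < n then x ⟨a, h⟩ else false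
  | k + 1, a => if a = n + k then (g k).val y (wg g y x k) else wg g y x k a

theorem wg_congr (g g' : ℕ → PG V) (y : V → Bool) (x : Fin n → Bool) (k : ℕ)
    (h : ∀ j < k, g j = g' j) : wg g y x k = wg g' y x k := by
  induction k with
  | zero => rfl
  | succ k ih =>
    funext a
    have h1 := ih (fun j hj => h j (by omega))
    show (if a = n + k then (g k).val y (wg g y x k) else wg g y x k a) =
      (if a = n + k then (g' k).val y (wg g' y x k) else wg g' y x k a)
    rw [h1, h k (by omega)]

theorem wg_eq (y : V → Bool) (x : Fin n → Bool) (K : List (PG V)) :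
    wg (gt n K) y x K.length = pw y x K := by
  induction K with
  | nil => rfl
  | cons G K ih =>
    funext a
    have h1 : wg (gt n (G :: K)) y x K.length = wg (gt n K) y x K.length := by
      apply wg_congr
      intro j hj
      show (if j = K.length then G else gt n K j) = gt n K j
      rw [if_neg (by omega)]
    show (if a = n + K.length then (gt n (G :: K) K.length).val y (wg (gt n (G :: K)) y x K.length)
      else wg (gt n (G :: K)) y x K.length a) =
      (if a = n + K.length then G.val y (pw y x K) else pw y x K a)
    rw [h1, ih]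
    have h2 : gt n (G :: K) K.length = G := if_pos rfl
    rw [h2]

theorem gt_ge (K : List (PG V)) : ∀ j, K.length ≤ j →
    gt n K j = ⟨true, n + j - 1, n + j - 1, .inl false, .inl false⟩ := by
  induction K with
  | nil => intro j _; rfl
  | cons G K ih =>
    intro j hj
    rw [List.length_cons] at hj
    show (if j = K.length then G else gt n K j) = _
    rw [if_neg (by omega)]
    exact ih j (by omega)

theorem wg_copy (y : V → Bool) (x : Fin n → Bool) (K : List (PG V)) (hK : 1 ≤ K.length) (i : ℕ) :
    wg (gt n K) y x (K.length + i) (n + (K.length + i) - 1) = pw y x K (n + K.length - 1) := by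
  induction i with
  | zero =>
    rw [add_zero, wg_eq]
  | succ i ih =>
    have e : n + (K.length + (i + 1)) - 1 = n + (K.length + i) := by omega
    rw [e]
    show (if n + (K.length + i) = n + (K.length + i) then
      (gt n K (K.length + i)).val y (wg (gt n K) y x (K.length + i)) else _) = _
    rw [if_pos rfl, gt_ge K _ (by omega)]
    show (if true = true then xor (wg (gt n K) y x (K.length + i) (n + (K.length + i) - 1)) false &&
      xor (wg (gt n K) y x (K.length + i) (n + (K.length + i) - 1)) false else _) = _
    rw [if_pos rfl, ih]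
    simp

theorem gt_ok (K : List (PG V)) (hK : POK n K) : ∀ j, j < K.length →
    (gt n K j).a < n + j ∧ (gt n K j).b < n + j := by
  induction K with
  | nil => intro j hj; exact absurd hj (Nat.not_lt_zero _)
  | cons G K ih =>
    intro j hj
    obtain ⟨h1, h2, h3⟩ := hK
    rw [List.length_cons] at hj
    by_cases h : j = K.length
    · have e : gt n (G :: K) j = G := if_pos h
      rw [e, h]
      exact ⟨h1, h2⟩
    · have e : gt n (G :: K) j = gt n K j := if_neg h
      rw [e]
      exact ih h3 j (by omega)

theorem gt_ok' (K : List (PG V)) (hK : POK n K) (h1 : 1 ≤ K.length) (j : ℕ) :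
    (gt n K j).a < n + j ∧ (gt n K j).b < n + j := by
  rcases Nat.lt_or_ge j K.length with h | h
  · exact gt_ok K hK j h
  · rw [gt_ge K j h]
    constructor
    · show n + j - 1 < n + j
      omega
    · show n + j - 1 < n + j
      omega

/-- the description of the gates `g j`, `j < s` -/
def sg {s w : ℕ} (g : ℕ → PG V) : Bits s w → Bool ⊕ V
  | .inl j => .inl (g j.val).op
  | .inr (.inl (j, i)) => if i = true then (g j.val).nb else (g j.val).na
  | .inr (.inr (j, i, t)) =>
    .inl ((if i = true then (g j.val).b else (g j.val).a).testBit t.val)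

theorem addr_sg {s w : ℕ} (g : ℕ → PG V) (y : V → Bool) (j : Fin s) (i : Bool)
    (h : (if i = true then (g j.val).b else (g j.val).a) < 2 ^ w) :
    addr (fun b : Bits s w => lv y (sg g b)) j i =
      if i = true then (g j.val).b else (g j.val).a := by
  exact sum_bits w _ h

theorem gateVal_sg {s w : ℕ} (g : ℕ → PG V) (y : V → Bool) (j : Fin s) (e : ℕ → Bool)
    (ha : (g j.val).a < 2 ^ w) (hb : (g j.val).b < 2 ^ w) :
    gateVal (fun b : Bits s w => lv y (sg g b)) j e = (g j.val).val y e := by
  have h1 := addr_sg (w := w) g y j false ha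
  have h2 := addr_sg (w := w) g y j true hb
  unfold gateVal PG.val
  rw [h1, h2]
  rfl

theorem wires_sg {s w : ℕ} (g : ℕ → PG V) (y : V → Bool) (x : Fin n → Bool)
    (h : ∀ j < s, (g j).a < 2 ^ w ∧ (g j).b < 2 ^ w) (k : ℕ) (hk : k ≤ s) :
    wires (fun b : Bits s w => lv y (sg g b)) x k = wg g y x k := by
  induction k with
  | zero => rfl
  | succ k ih =>
    funext a
    have h1 := ih (by omega)
    show (if h : k < s ∧ a = n + k then gateVal (fun b : Bits s w => lv y (sg g b)) ⟨k, h.1⟩
      (wires (fun b : Bits s w => lv y (sg g b)) x k)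
      else wires (fun b : Bits s w => lv y (sg g b)) x k a) =
      (if a = n + k then (g k).val y (wg g y x k) else wg g y x k a)
    rw [h1]
    by_cases ha : a = n + k
    · rw [dif_pos ⟨by omega, ha⟩, if_pos ha]
      exact gateVal_sg g y ⟨k, by omega⟩ _ (h k (by omega)).1 (h k (by omega)).2
    · rw [dif_neg (fun hh => ha hh.2), if_neg ha]

end MConv

open MConv in
theorem m_conv : ConvProp := by
  intro V n s w K hK hne hs hw
  have h1 : 1 ≤ K.length := List.length_pos_iff.2 hne
  have hlt : ∀ j < s, (gt n K j).a < 2 ^ w ∧ (gt n K j).b < 2 ^ w := by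
    intro j hj
    have := gt_ok' K hK h1 j
    omega
  refine ⟨sg (gt n K), fun y => ⟨?_, fun x => ?_⟩⟩
  · intro j i
    have h2 := gt_ok' K hK h1 j.val
    have h3 := hlt j.val j.isLt
    have h4 : (if i = true then (gt n K j.val).b else (gt n K j.val).a) < n + j.val := by
      cases i
      · exact h2.1
      · exact h2.2
    have h5 : (if i = true then (gt n K j.val).b else (gt n K j.val).a) < 2 ^ w := by
      cases i
      · exact h3.1
      · exact h3.2
    rw [addr_sg (gt n K) y j i h5]
    exact h4
  · unfold output
    rw [wires_sg (gt n K) y x hlt s le_rfl]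
    obtain ⟨i, hi⟩ := Nat.exists_eq_add_of_le hs
    rw [hi]
    exact wg_copy y x K h1 i

end H542.MC
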