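import Mathlib
import Pool.Agent.H542R2.MC.Stubs

set_option autoImplicit false

namespace H542.MC

open Finset

namespace EXPAaux

lemma choose_shift (a b : ℕ) : ∀ k : ℕ, a.choose b ≤ (a + k).choose (b + k)
  | 0 => le_rfl
  | k + 1 => by
    refine (choose_shift a b k).trans ?_
    rw [show a + (k + 1) = (a + k) + 1 by ring, show b + (k + 1) = (b + k) + 1 by ring,
      Nat.choose_succ_succ]
    exact Nat.le_add_right _ _

lemma two_pow_le (d : ℕ) : 2 ^ d ≤ (2 * d).choose d := by
  induction d with
  | zero => simp
  | succ d ih =>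
    have h1 : (2 * (d + 1)).choose (d + 1) =
        (2 * d + 1).choose d + (2 * d + 1).choose (d + 1) := by
      rw [show 2 * (d + 1) = (2 * d + 1) + 1 by ring, Nat.choose_succ_succ]
    have h2 : (2 * d).choose d ≤ (2 * d + 1).choose d :=
      Nat.choose_le_choose d (by omega)
    have h3 : (2 * d).choose d ≤ (2 * d + 1).choose (d + 1) := choose_shift (2 * d) d 1
    rw [h1, pow_succ]
    omega

lemma two_pow_le' (n d s : ℕ) (hn : 3 * d ≤ n) (hs : s ≤ d) :
    2 ^ d ≤ (n - s).choose (2 * d - s) := by
  have h1 : (n - d).choose d ≤ (n - s).choose (2 * d - s) := by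
    have := choose_shift (n - d) d (d - s)
    rwa [show n - d + (d - s) = n - s by omega, show d + (d - s) = 2 * d - s by omega] at this
  exact (two_pow_le d).trans ((Nat.choose_le_choose d (by omega)).trans h1)

end EXPAaux

open EXPAaux in
theorem m_expa (hisol : IsolProp) : ExpaProp := by
  classical
  intro n d hd U hU
  rcases U.eq_empty_or_nonempty with rfl | hne
  · simp
  obtain ⟨x, hx, S, hS, huniq⟩ := hisol n U hne
  have hSd : S.card ≤ d := by
    have : 2 ^ S.card ≤ 2 ^ d := hS.trans hU
    exact (Nat.pow_le_pow_iff_right (by norm_num)).1 this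
  have hcomp : (univ \ S).card = n - S.card := by
    rw [Finset.card_sdiff_of_subset (Finset.subset_univ S), Finset.card_univ, Fintype.card_fin]
  -- injection
  have hmap : ∀ T ∈ powersetCard (2 * d - S.card) (univ \ S), (S ∪ T).card = 2 * d := by
    intro T hT
    rw [Finset.mem_powersetCard] at hT
    rw [Finset.card_union_of_disjoint, hT.2]
    · omega
    · rw [Finset.disjoint_left]
      intro i hi hi'
      exact (Finset.mem_sdiff.1 (hT.1 hi')).2 hi
  let φ : ∀ T ∈ powersetCard (2 * d - S.card) (univ \ S), Blk n (2 * d) := fun T hT =>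
    ⟨(S ∪ T, (S ∪ T).filter fun i => x i = true), hmap T hT, Finset.filter_subset _ _⟩
  have hle : (powersetCard (2 * d - S.card) (univ \ S)).card ≤
      (privG (rowB n (2 * d)) U).card := by
    rw [← Finset.card_attach, ← Finset.card_image_of_injective (f := fun T => φ T.1 T.2)]
    · refine Finset.card_le_card ?_
      intro q hq
      obtain ⟨T, -, rfl⟩ := Finset.mem_image.1 hq
      simp only [privG, Finset.mem_filter, Finset.mem_univ, true_and]
      refine ⟨x, hx, ?_, ?_⟩
      · simp only [rowB, Finset.mem_filter, Finset.mem_univ, true_and]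
        intro i hi
        have hi' : i ∈ S ∪ T.1 := hi
        show x i = true ↔ i ∈ (S ∪ T.1).filter fun i => x i = true
        simp only [Finset.mem_filter, hi', true_and]
      · intro x' hx' hne' hcon
        simp only [rowB, Finset.mem_filter, Finset.mem_univ, true_and] at hcon
        apply hne'
        refine huniq x' hx' fun i hi => ?_
        have hi' : i ∈ S ∪ T.1 := Finset.mem_union_left _ hi
        have h1 : x' i = true ↔ i ∈ (S ∪ T.1).filter fun i => x i = true := hcon i hi'
        simp only [Finset.mem_filter, hi', true_and] at h1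
        exact Bool.eq_iff_iff.2 h1
    · rintro ⟨T, hT⟩ ⟨T', hT'⟩ h
      have h1 : S ∪ T = S ∪ T' := congrArg (fun q : Blk n (2 * d) => q.1.1) h
      have e : ∀ T ∈ powersetCard (2 * d - S.card) (univ \ S), (S ∪ T) \ S = T := by
        intro T hT
        rw [Finset.mem_powersetCard] at hT
        rw [Finset.union_sdiff_left]
        refine Finset.sdiff_eq_self_of_disjoint ?_
        rw [Finset.disjoint_left]
        intro i hi hi'
        exact (Finset.mem_sdiff.1 (hT.1 hi)).2 hi'
      have : T = T' := by rw [← e T hT, ← e T' hT', h1]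
      exact Subtype.ext this
  refine hU.trans ((two_pow_le' n d S.card hd hSd).trans ?_)
  rw [← hcomp, ← Finset.card_powersetCard]
  exact hle

end H542.MC
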