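import Pool.Agent.H542R2.MC.Stubs

/-!
# Flipping one hardwired bit flips the parity (helper202)
-/

set_option autoImplicit false

namespace H542.MC

open Finset

theorem M_FLIP_odd (n : ℕ) : decide (Odd (n + 1)) = !decide (Odd n) := by
  by_cases h : Odd n
  · have h1 : ¬ Odd (n + 1) := by rw [Nat.odd_add_one]; exact not_not_intro h
    simp [h, h1]
  · have h1 : Odd (n + 1) := by rw [Nat.odd_add_one]; exact h
    simp [h, h1]

theorem M_FLIP_par {κ : Type} [Fintype κ] [DecidableEq κ] (A : κ → Prop) [DecidablePred A]
    (z z' : κ → Bool) (v0 : κ) (h0 : A v0)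
    (h1 : z' v0 = !(z v0)) (h2 : ∀ v, v ≠ v0 → z' v = z v) :
    decide (Odd (univ.filter fun v => A v ∧ z' v = true).card) =
      !(decide (Odd (univ.filter fun v => A v ∧ z v = true).card)) := by
  have key : ∀ u u' : κ → Bool, u v0 = false → u' v0 = true → (∀ v, v ≠ v0 → u' v = u v) →
      (univ.filter fun v => A v ∧ u' v = true).card =
        (univ.filter fun v => A v ∧ u v = true).card + 1 := by
    intro u u' hu hu' huu
    have hn : v0 ∉ univ.filter fun v => A v ∧ u v = true := by
      intro h
      have := (Finset.mem_filter.1 h).2.2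
      rw [hu] at this
      exact Bool.noConfusion this
    rw [← Finset.card_insert_of_notMem hn]
    congr 1
    ext v
    simp only [Finset.mem_filter, Finset.mem_univ, true_and, Finset.mem_insert]
    by_cases hv : v = v0
    · subst hv
      simp [h0, hu']
    · rw [huu v hv]
      simp [hv]
  cases hz : z v0
  · rw [hz] at h1
    rw [key z z' hz h1 h2]
    exact M_FLIP_odd _
  · rw [hz] at h1
    rw [key z' z h1 hz (fun v hv => (h2 v hv).symm), M_FLIP_odd, Bool.not_not]

theorem m_flip : FlipProp := by
  classical
  intro n g M J z x
  constructor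
  · intro y y' h
    have hh : (univ.filter fun v : Blk n g × Fin M => Has x v.1 ∧ mv J z y v = true) =
        univ.filter fun v : Blk n g × Fin M => Has x v.1 ∧ mv J z y' v = true := by
      apply Finset.filter_congr
      intro v _
      constructor
      · rintro ⟨h1, h2⟩
        refine ⟨h1, ?_⟩
        have hm : v.1 ∈ rowB n g x := by
          unfold rowB
          exact Finset.mem_filter.2 ⟨Finset.mem_univ _, h1⟩
        rw [← h2]
        unfold mv
        rw [h v.1 hm]
      · rintro ⟨h1, h2⟩
        refine ⟨h1, ?_⟩
        have hm : v.1 ∈ rowB n g x := by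
          unfold rowB
          exact Finset.mem_filter.2 ⟨Finset.mem_univ _, h1⟩
        rw [← h2]
        unfold mv
        rw [h v.1 hm]
    unfold parV
    rw [hh]
  · intro p hp y
    have hhas : Has x p := (Finset.mem_filter.1 hp).2
    unfold parV
    refine M_FLIP_par (fun v : Blk n g × Fin M => Has x v.1) (mv J z y)
      (mv J z (Function.update y p (!(y p)))) (p, J p) hhas ?_ ?_
    · unfold mv
      simp
    · intro v hv
      unfold mv
      by_cases h : v.2 = J v.1
      · rw [if_pos h, if_pos h]
        rw [Function.update_of_ne]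
        intro h1
        apply hv
        rw [← h1, ← h]
      · rw [if_neg h, if_neg h]

end H542.MC
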