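import Mathlib
import Pool.Agent.H542R2.MC.Stubs

namespace H542.MC

theorem m_isol : IsolProp := by
  intro n U hU
  induction' hc : U.card using Nat.strong_induction_on with c ih generalizing U
  by_cases h1 : U.card = 1
  · obtain ⟨x, hx⟩ := Finset.card_eq_one.mp h1
    refine ⟨x, by simp [hx], ∅, ?_, ?_⟩
    · simp
      omega
    · intro x' hx' _
      rw [hx] at hx'
      exact Finset.mem_singleton.mp hx'
  · have h2 : 1 < U.card := by
      have := hU.card_pos
      omega
    obtain ⟨x1, h1m, x2, h2m, hne⟩ := Finset.one_lt_card.mp h2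
    obtain ⟨i, hi⟩ : ∃ i, x1 i ≠ x2 i := by
      by_contra hcon
      push Not at hcon
      exact hne (funext hcon)
    have hnon : ∀ b : Bool, (U.filter (fun x => x i = b)).Nonempty := by
      intro b
      by_cases hb : x1 i = b
      · exact ⟨x1, Finset.mem_filter.mpr ⟨h1m, hb⟩⟩
      · refine ⟨x2, Finset.mem_filter.mpr ⟨h2m, ?_⟩⟩
        revert hi hb
        cases x1 i <;> cases x2 i <;> cases b <;> simp
    have hsum : (U.filter (fun x => x i = true)).card
        + (U.filter (fun x => x i = false)).card = U.card := by
      have h3 := Finset.card_filter_add_card_filter_not (s := U) (fun x => x i = true)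
      simpa using h3
    obtain ⟨b, hb2⟩ : ∃ b : Bool, 2 * (U.filter (fun x => x i = b)).card ≤ U.card := by
      by_cases hle : (U.filter (fun x => x i = true)).card
          ≤ (U.filter (fun x => x i = false)).card
      · exact ⟨true, by omega⟩
      · exact ⟨false, by omega⟩
    have hlt : (U.filter (fun x => x i = b)).card < c := by
      have := (hnon b).card_pos
      omega
    obtain ⟨x, hx, S, hS, hiso⟩ := ih _ hlt (U.filter (fun x => x i = b)) (hnon b) rfl
    have hxm := Finset.mem_filter.mp hx
    refine ⟨x, hxm.1, insert i S, ?_, ?_⟩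
    · have h4 : (insert i S).card ≤ S.card + 1 := Finset.card_insert_le _ _
      calc 2 ^ (insert i S).card ≤ 2 ^ (S.card + 1) := Nat.pow_le_pow_right (by norm_num) h4
        _ = 2 * 2 ^ S.card := by ring
        _ ≤ c := by omega
    · intro x' hx' hag
      refine hiso x' (Finset.mem_filter.mpr ⟨hx', ?_⟩) ?_
      · rw [hag i (Finset.mem_insert_self _ _)]
        exact hxm.2
      · intro j hj
        exact hag j (Finset.mem_insert_of_mem hj)

end H542.MC
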