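import Mathlib
import Pool.Agent.H542R2.MC.Stubs

namespace H542.MC

theorem m_num : NumProp := by
  intro δ hδ
  set x : ℝ := (2 : ℝ) ^ (δ / 2) - 1 with hxdef
  have hx : 0 < x := by
    have h1 : (1 : ℝ) < (2 : ℝ) ^ (δ / 2) := Real.one_lt_rpow (by norm_num) (by linarith)
    rw [hxdef]
    linarith
  set B : ℝ := max 2 (2 / x) with hBdef
  have hB2 : (2 : ℝ) ≤ B := le_max_left _ _
  have hBx : 2 / x ≤ B := le_max_right _ _
  have hBpos : 0 < B := by linarith
  have hlog : 0 < Real.logb 2 B := Real.logb_pos (by norm_num) (by linarith)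
  refine ⟨min (1 / 3) (δ / (4 * Real.logb 2 B)), ?_, min_le_left _ _, ?_⟩
  · refine lt_min (by norm_num) ?_
    positivity
  · intro n k hk
    have hγ : min (1 / 3) (δ / (4 * Real.logb 2 B)) ≤ δ / (4 * Real.logb 2 B) := min_le_right _ _
    -- binomial bound
    have hbin : (n.choose k : ℝ) * x ^ k ≤ (2 : ℝ) ^ (δ / 2 * n) := by
      have h1 : (n.choose k : ℝ) * x ^ k ≤ (x + 1) ^ n := by
        by_cases hkn : k ≤ n
        · rw [add_pow]
          have h2 := Finset.single_le_sum (f := fun m => x ^ m * 1 ^ (n - m) * (n.choose m : ℝ))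
            (s := Finset.range (n + 1)) (fun i _ => by positivity)
            (Finset.mem_range.mpr (Nat.lt_succ_of_le hkn))
          simp only [one_pow, mul_one] at h2
          simp only [one_pow, mul_one]
          linarith
        · rw [Nat.choose_eq_zero_of_lt (by omega)]
          simp
          positivity
      have h3 : (x + 1) ^ n = (2 : ℝ) ^ (δ / 2 * n) := by
        rw [hxdef, sub_add_cancel, ← Real.rpow_natCast, ← Real.rpow_mul (by norm_num)]
      rw [← h3]
      exact h1
    have hpw : B ^ k ≤ (2 : ℝ) ^ (δ / 2 * n) := by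
      have h1 : B ^ k = (2 : ℝ) ^ (Real.logb 2 B * k) := by
        rw [Real.rpow_mul (by norm_num), Real.rpow_logb (by norm_num) (by norm_num) hBpos,
          Real.rpow_natCast]
      rw [h1]
      apply Real.rpow_le_rpow_of_exponent_le (by norm_num)
      have h2 : (k : ℝ) ≤ 2 * (δ / (4 * Real.logb 2 B)) * n := by
        refine hk.trans ?_
        gcongr
      calc Real.logb 2 B * k ≤ Real.logb 2 B * (2 * (δ / (4 * Real.logb 2 B)) * n) := by gcongr
        _ = δ / 2 * n := by
          field_simp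
          ring
    have hfin : (n.choose k : ℝ) * 2 ^ k ≤ (2 : ℝ) ^ (δ / 2 * n) * B ^ k := by
      have h1 : (n.choose k : ℝ) * 2 ^ k = ((n.choose k : ℝ) * x ^ k) * (2 / x) ^ k := by
        rw [div_pow]
        field_simp
      rw [h1]
      gcongr
    push_cast
    calc (n.choose k : ℝ) * 2 ^ k ≤ (2 : ℝ) ^ (δ / 2 * n) * B ^ k := hfin
      _ ≤ (2 : ℝ) ^ (δ / 2 * n) * (2 : ℝ) ^ (δ / 2 * n) := by gcongr
      _ = (2 : ℝ) ^ (δ * n) := by
        rw [← Real.rpow_add (by norm_num)]
        congr 1
        ring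

end H542.MC
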