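import Mathlib
import Pool.Agent.H542R2.MC.Stubs

set_option autoImplicit false

namespace H542.MC

open Finset

namespace PROGaux

variable {n : ℕ} {V : Type}

lemma pw_old (y : V → Bool) (x : Fin n → Bool) (K : List (PG V)) (c : ℕ) (hc : c < n + K.length) :
    ∀ L : List (PG V), pw y x (L ++ K) c = pw y x K c
  | [] => rfl
  | G :: L => by
    have h : c ≠ n + (L ++ K).length := by
      rw [List.length_append]; omega
    rw [List.cons_append]
    show (if c = n + (L ++ K).length then _ else _) = _
    rw [if_neg h]
    exact pw_old y x K c hc L

lemma pw_old1 (y : V → Bool) (x : Fin n → Bool) (K : List (PG V)) (c : ℕ)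
    (hc : c < n + K.length) (G : PG V) : pw y x (G :: K) c = pw y x K c :=
  pw_old y x K c hc [G]

lemma pw_new (y : V → Bool) (x : Fin n → Bool) (K : List (PG V)) (G : PG V) :
    pw y x (G :: K) (n + K.length) = G.val y (pw y x K) := by
  show (if n + K.length = n + K.length then _ else _) = _
  rw [if_pos rfl]

lemma pw_input (y : V → Bool) (x : Fin n → Bool) (i : Fin n) :
    ∀ K : List (PG V), pw y x K i.val = x i
  | [] => by
    show (if h : i.val < n then x ⟨i.val, h⟩ else false) = x i
    rw [dif_pos i.2]
  | G :: K => by
    have h : i.val ≠ n + K.length := by have := i.2; omega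
    show (if i.val = n + K.length then _ else _) = _
    rw [if_neg h]
    exact pw_input y x i K

/-- conjunction of literals -/
lemma conj (K : List (PG V)) (hK : POK n K) (hl : 1 ≤ K.length)
    (h0 : ∀ (y : V → Bool) (x : Fin n → Bool), pw y x K n = false) (R : Finset (Fin n))
    (T : Finset (Fin n)) :
    ∃ L : List (PG V), L.length = T.card ∧ POK n (L ++ K) ∧ ∃ c < n + (L ++ K).length,
      ∃ nb : Bool, ∀ (y : V → Bool) (x : Fin n → Bool),
        xor (pw y x (L ++ K) c) nb = decide (∀ i ∈ T, (x i = true ↔ i ∈ R)) := by
  classical
  induction T using Finset.induction_on with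
  | empty =>
    refine ⟨[], rfl, hK, n, by simp; omega, true, fun y x => ?_⟩
    simp [h0]
  | insert i T hi ih =>
    obtain ⟨L, hL, hP, c, hc, nb, hv⟩ := ih
    refine ⟨⟨true, c, i.val, .inl nb, .inl (decide (i ∉ R))⟩ :: L, ?_, ?_,
      n + (L ++ K).length, ?_, false, ?_⟩
    · simp [hL, Finset.card_insert_of_notMem hi]
    · refine ⟨hc, ?_, hP⟩
      have := i.2
      show i.val < n + (L ++ K).length
      omega
    · simp only [List.cons_append, List.length_cons]; omega
    · intro y x
      rw [List.cons_append, pw_new]
      simp only [PG.val, lv, if_true, Bool.xor_false]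
      rw [hv y x, pw_input]
      by_cases h1 : ∀ j ∈ T, (x j = true ↔ j ∈ R) <;> by_cases h2 : i ∈ R <;> cases h3 : x i <;>
        simp [h1, h2, h3]

/-- parity of the hardwired bits of a block -/
lemma par {κ : Type} {M : ℕ} (K : List (PG (κ × Fin M))) (hK : POK n K) (hl : 1 ≤ K.length)
    (h0 : ∀ (y : κ × Fin M → Bool) (x : Fin n → Bool), pw y x K n = false) (p : κ)
    (T : Finset (Fin M)) :
    ∃ L : List (PG (κ × Fin M)), L.length = T.card ∧ POK n (L ++ K) ∧
      ∃ c < n + (L ++ K).length, ∀ (y : κ × Fin M → Bool) (x : Fin n → Bool),
        pw y x (L ++ K) c = decide (Odd (T.filter fun j => y (p, j) = true).card) := by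
  classical
  induction T using Finset.induction_on with
  | empty =>
    refine ⟨[], rfl, hK, n, by simp; omega, fun y x => ?_⟩
    simp [h0]
  | insert i T hi ih =>
    obtain ⟨L, hL, hP, c, hc, hv⟩ := ih
    refine ⟨⟨false, c, n, .inr (p, i), .inl false⟩ :: L, ?_, ?_,
      n + (L ++ K).length, ?_, ?_⟩
    · simp [hL, Finset.card_insert_of_notMem hi]
    · refine ⟨hc, ?_, hP⟩
      show n < n + (L ++ K).length
      rw [List.length_append]; omega
    · simp only [List.cons_append, List.length_cons]; omega
    · intro y x
      rw [List.cons_append, pw_new]
      have hn : pw y x (L ++ K) n = false := by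
        rw [pw_old y x K n (by omega) L, h0]
      simp only [PG.val, lv, Bool.xor_false]
      rw [hv y x, hn]
      simp only [Bool.or_false, Bool.false_eq_true, if_false]
      rw [Finset.filter_insert]
      cases h3 : y (p, i)
      · simp
      · have : i ∉ T.filter fun j => y (p, j) = true := fun h => hi (Finset.mem_filter.1 h).1
        simp only [if_true]
        rw [Finset.card_insert_of_notMem this]
        by_cases h4 : Odd (T.filter fun j => y (p, j) = true).card
        · simp [h4, Nat.odd_add_one]
        · simp [h4, Nat.odd_add_one]

end PROGaux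

open PROGaux in
theorem m_prog : ProgProp := by
  classical
  intro n g M hn
  -- invariant
  have key : ∀ A : Finset (Blk n g), ∃ K : List (PG (Blk n g × Fin M)), POK n K ∧
      1 ≤ K.length ∧ K.length ≤ A.card * (M + g + 4) + 1 ∧
      (∀ (y : Blk n g × Fin M → Bool) (x : Fin n → Bool), pw y x K n = false) ∧
      ∀ (y : Blk n g × Fin M → Bool) (x : Fin n → Bool),
        pw y x K (n + K.length - 1) = decide (Odd (univ.filter
          fun v : Blk n g × Fin M => v.1 ∈ A ∧ Has x v.1 ∧ y v = true).card) := by
    intro A
    induction A using Finset.induction_on with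
    | empty =>
      have hz : ∀ (y : Blk n g × Fin M → Bool) (x : Fin n → Bool),
          pw y x [(⟨true, 0, 0, .inl false, .inl true⟩ : PG (Blk n g × Fin M))] n = false := by
        intro y x
        have := pw_new y x ([] : List (PG (Blk n g × Fin M))) ⟨true, 0, 0, .inl false, .inl true⟩
        simp only [List.length_nil, add_zero] at this
        rw [this]
        simp [PG.val, lv]
      refine ⟨[⟨true, 0, 0, .inl false, .inl true⟩], ?_, by simp, by simp, hz, ?_⟩
      · refine ⟨?_, ?_, trivial⟩ <;> simp <;> omega
      · intro y x
        have := hz y x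
        simp only [List.length_singleton, Nat.add_sub_cancel]
        rw [this]
        simp
    | insert p A hp ih =>
      obtain ⟨K, hK, hl, hlen, hK0, hKv⟩ := ih
      obtain ⟨L1, hL1, hP1, c1, hc1, nb1, hv1⟩ := conj K hK hl hK0 p.1.2 p.1.1
      have hK1l : 1 ≤ (L1 ++ K).length := by rw [List.length_append]; omega
      have hK10 : ∀ (y : Blk n g × Fin M → Bool) (x : Fin n → Bool), pw y x (L1 ++ K) n = false :=
        fun y x => by rw [pw_old y x K n (by omega) L1, hK0]
      obtain ⟨L2, hL2, hP2, b2, hb2, hv2⟩ := par (L1 ++ K) hP1 hK1l hK10 p (univ : Finset (Fin M))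
      set K1 := L1 ++ K with hK1
      set K2 := L2 ++ K1 with hK2
      have hlen1 : K1.length = g + K.length := by
        rw [hK1, List.length_append, hL1, p.2.1]
      have hlen2 : K2.length = M + g + K.length := by
        rw [hK2, List.length_append, hL2, hlen1, Finset.card_univ, Fintype.card_fin]; ring
      set D : PG (Blk n g × Fin M) := ⟨true, c1, b2, .inl nb1, .inl false⟩ with hD
      set U : PG (Blk n g × Fin M) := ⟨true, n + K.length - 1, n + K2.length, .inl false,
        .inl true⟩ with hU
      set W : PG (Blk n g × Fin M) := ⟨true, n + K.length - 1, n + K2.length, .inl true,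
        .inl false⟩ with hW
      set Z : PG (Blk n g × Fin M) := ⟨false, n + (D :: K2).length, n + (U :: D :: K2).length,
        .inl false, .inl false⟩ with hZ
      refine ⟨Z :: W :: U :: D :: K2, ?_, by simp, ?_, ?_, ?_⟩
      · refine ⟨?_, ?_, ?_, ?_, ?_, ?_, ?_, ?_, hP2⟩
        · simp [hZ]
        · simp [hZ]
        · simp only [hW, List.length_cons]; omega
        · simp only [hW, List.length_cons]; omega
        · simp only [hU, List.length_cons]; omega
        · simp only [hU, List.length_cons]; omega
        · show c1 < n + K2.length
          omega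
        · exact hb2
      · rw [Finset.card_insert_of_notMem hp]
        simp only [List.length_cons]
        rw [hlen2]
        nlinarith
      · intro y x
        have : Z :: W :: U :: D :: K2 = ([Z, W, U, D] ++ L2 ++ L1) ++ K := by
          simp [hK2, hK1]
        rw [this, pw_old y x K n (by omega), hK0]
      · intro y x
        have e1 : n + (Z :: W :: U :: D :: K2).length - 1 = n + (W :: U :: D :: K2).length := by
          simp only [List.length_cons]; omega
        rw [e1, pw_new]
        -- value of the accumulator
        have vacc : pw y x K2 (n + K.length - 1) = decide (Odd (univ.filter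
            fun v : Blk n g × Fin M => v.1 ∈ A ∧ Has x v.1 ∧ y v = true).card) := by
          rw [hK2, hK1, ← List.append_assoc, pw_old y x K _ (by omega), hKv]
        have vc1 : xor (pw y x K2 c1) nb1 = decide (Has x p) := by
          rw [hK2, pw_old y x K1 c1 hc1, hv1 y x]
          rfl
        have vD : pw y x (D :: K2) (n + K2.length) = (decide (Has x p) &&
            decide (Odd (univ.filter fun j : Fin M => y (p, j) = true).card)) := by
          rw [pw_new]
          simp only [hD, PG.val, lv, if_true, Bool.xor_false]
          rw [vc1, hv2 y x]
        have vU : pw y x (W :: U :: D :: K2) (n + (D :: K2).length) =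
            (pw y x K2 (n + K.length - 1) && !(pw y x (D :: K2) (n + K2.length))) := by
          rw [pw_old1 y x (U :: D :: K2) _ (by simp only [List.length_cons]; omega), pw_new]
          simp only [hU, PG.val, lv, if_true, Bool.xor_false, Bool.xor_true]
          rw [pw_old1 y x K2 (n + K.length - 1) (by omega)]
        have vW : pw y x (W :: U :: D :: K2) (n + (U :: D :: K2).length) =
            (!(pw y x K2 (n + K.length - 1)) && (pw y x (D :: K2) (n + K2.length))) := by
          rw [pw_new]
          simp only [hW, PG.val, lv, if_true, Bool.xor_false, Bool.xor_true]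
          rw [pw_old1 y x (D :: K2) (n + K.length - 1)
            (by simp only [List.length_cons]; omega),
            pw_old1 y x K2 (n + K.length - 1) (by omega),
            pw_old1 y x (D :: K2) (n + K2.length) (by simp only [List.length_cons]; omega)]
        simp only [hZ, PG.val, lv, Bool.xor_false, Bool.false_eq_true, if_false]
        rw [vU, vW, vacc, vD]
        -- cardinalities
        have hcard : (univ.filter fun v : Blk n g × Fin M =>
            v.1 ∈ insert p A ∧ Has x v.1 ∧ y v = true).card =
            (univ.filter fun v : Blk n g × Fin M => v.1 ∈ A ∧ Has x v.1 ∧ y v = true).card +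
            (if Has x p then (univ.filter fun j : Fin M => y (p, j) = true).card else 0) := by
          have hsplit : (univ.filter fun v : Blk n g × Fin M =>
              v.1 ∈ insert p A ∧ Has x v.1 ∧ y v = true) =
              (univ.filter fun v : Blk n g × Fin M => v.1 ∈ A ∧ Has x v.1 ∧ y v = true) ∪
              (univ.filter fun v : Blk n g × Fin M => v.1 = p ∧ Has x v.1 ∧ y v = true) := by
            ext v
            simp only [Finset.mem_filter, Finset.mem_univ, true_and, Finset.mem_union,
              Finset.mem_insert]
            tauto
          rw [hsplit, Finset.card_union_of_disjoint]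
          · congr 1
            split_ifs with hx
            · symm
              refine Finset.card_bij (fun j _ => (p, j)) ?_ ?_ ?_
              · intro j hj
                simp only [Finset.mem_filter, Finset.mem_univ, true_and] at hj ⊢
                exact ⟨hx, hj⟩
              · intro j _ j' _ h
                exact (Prod.mk.inj h).2
              · rintro ⟨q, j⟩ hv
                simp only [Finset.mem_filter, Finset.mem_univ, true_and] at hv
                obtain ⟨rfl, _, hy⟩ := hv
                exact ⟨j, by simpa using hy, rfl⟩
            · rw [Finset.card_eq_zero, Finset.filter_eq_empty_iff]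
              rintro v _ ⟨h1, h2, _⟩
              exact hx (h1 ▸ h2)
          · rw [Finset.disjoint_left]
            intro v h1 h2
            simp only [Finset.mem_filter, Finset.mem_univ, true_and] at h1 h2
            exact hp (h2.1 ▸ h1.1)
        rw [hcard]
        by_cases h1 : Has x p
        · simp only [h1, decide_true, Bool.true_and, if_true, Nat.odd_add]
          by_cases h2 : Odd (univ.filter fun v : Blk n g × Fin M =>
              v.1 ∈ A ∧ Has x v.1 ∧ y v = true).card <;>
            rcases Nat.even_or_odd (univ.filter fun j : Fin M => y (p, j) = true).card with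
              h3 | h3 <;>
            simp [h2, h3]
        · simp [h1]
  obtain ⟨K, h1, h2, h3, _, h5⟩ := key univ
  refine ⟨K, h1, ?_, ?_, ?_⟩
  · rintro rfl
    simp at h2
  · rwa [Finset.card_univ] at h3
  · intro y x
    rw [h5 y x]
    unfold parV
    simp only [Finset.mem_univ, true_and]

end H542.MC
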