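import Mathlib
import Pool.Agent.H542R2.MC.Loc

set_option autoImplicit false

/-!
Project MC: the lower bound, from the parts.
-/

namespace H542.MC

open Finset

/-- negation normal form, constants eliminated, after a substitution of literals; the flag `s` is
the sign -/
def conv {V W : Type} (σ : W → Bool ⊕ V) (s : Bool) : Fml W → T V ⊕ Bool
  | .const b => .inr (b == s)
  | .var v => match σ v with
    | .inl c => .inr (c == s)
    | .inr u => .inl (.lit u s)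
  | .neg f => conv σ (!s) f
  | .and f g => comb s (conv σ s f) (conv σ s g)
  | .or f g => comb (!s) (conv σ s f) (conv σ s g)

theorem evs_conv {V W : Type} (y : V → Bool) (σ : W → Bool ⊕ V) (s : Bool) (f : Fml W) :
    evs y (conv σ s f) = (f.eval (fun b => lv y (σ b)) == s) := by
  induction f generalizing s with
  | const b => rfl
  | var v =>
    simp only [conv, Fml.eval]
    cases h : σ v <;> rfl
  | neg f ih =>
    simp only [conv, Fml.eval, ih]
    cases f.eval (fun b => lv y (σ b)) <;> cases s <;> rfl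
  | and f g ihf ihg =>
    simp only [conv, Fml.eval, evs_comb, ihf, ihg]
    cases f.eval (fun b => lv y (σ b)) <;> cases g.eval (fun b => lv y (σ b)) <;>
      cases s <;> rfl
  | or f g ihf ihg =>
    simp only [conv, Fml.eval, evs_comb, ihf, ihg]
    cases f.eval (fun b => lv y (σ b)) <;> cases g.eval (fun b => lv y (σ b)) <;>
      cases s <;> rfl

theorem leavess_conv {V W : Type} (σ : W → Bool ⊕ V) (s : Bool) (f : Fml W) :
    leavess (conv σ s f) ≤ f.size := by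
  induction f generalizing s with
  | const b => simp [conv, leavess]
  | var v =>
    simp only [conv, Fml.size]
    cases h : σ v <;> simp [leavess, T.leaves]
  | neg f ih => exact ih (!s)
  | and f g ihf ihg =>
    exact (leavess_comb _ _ _).trans (add_le_add (ihf s) (ihg s))
  | or f g ihf ihg =>
    exact (leavess_comb _ _ _).trans (add_le_add (ihf s) (ihg s))

/-- some restriction makes all lines shallow -/
theorem exists_restr {ι : Type} [Fintype ι] [DecidableEq ι] {M : ℕ} (τ B : ℝ) (hτ : 0 < τ)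
    (hM : 1 ≤ M) (L : ℕ)
    (hshr : ∀ ψ : T (ι × Fin M) ⊕ Bool, leavess ψ ≤ L →
      ∑ J : ι → Fin M, ∑ x : ι × Fin M → Bool, Real.exp (τ * dep fun y => evs (mv J x y) ψ) ≤
        ((M : ℝ) ^ Fintype.card ι * 2 ^ Fintype.card (ι × Fin M)) * B)
    (h : ℕ) {S : ℕ} (ψ : Fin S → T (ι × Fin M) ⊕ Bool)
    (hψ : ∀ j, leavess (ψ j) ≤ L) (hS : (S : ℝ) * B < Real.exp (τ * (h + 1))) :
    ∃ (J : ι → Fin M) (x : ι × Fin M → Bool),
      ∀ j, (dep fun y => evs (mv J x y) (ψ j)) ≤ h := by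
  classical
  by_contra hcon
  push Not at hcon
  have hMpos : (0 : ℝ) < (M : ℝ) ^ Fintype.card ι * 2 ^ Fintype.card (ι × Fin M) := by
    have : (0 : ℝ) < M := by exact_mod_cast hM
    positivity
  have h1 : ((M : ℝ) ^ Fintype.card ι * 2 ^ Fintype.card (ι × Fin M)) *
      Real.exp (τ * (h + 1)) ≤
      ∑ p : (ι → Fin M) × (ι × Fin M → Bool), ∑ j,
        Real.exp (τ * dep fun y => evs (mv p.1 p.2 y) (ψ j)) := by
    have hc : (M : ℝ) ^ Fintype.card ι * 2 ^ Fintype.card (ι × Fin M) =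
        ((univ : Finset ((ι → Fin M) × (ι × Fin M → Bool))).card : ℝ) := by
      rw [card_univ]
      simp
    rw [hc, ← nsmul_eq_mul, ← sum_const]
    refine sum_le_sum fun p hp => ?_
    obtain ⟨j, hj⟩ := hcon p.1 p.2
    refine le_trans ?_ (single_le_sum
      (f := fun j => Real.exp (τ * dep fun y => evs (mv p.1 p.2 y) (ψ j)))
      (fun j _ => (Real.exp_pos _).le) (mem_univ j))
    apply Real.exp_le_exp.mpr
    apply mul_le_mul_of_nonneg_left _ hτ.le
    have : h + 1 ≤ dep fun y => evs (mv p.1 p.2 y) (ψ j) := hj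
    exact_mod_cast this
  have h2 : ∑ p : (ι → Fin M) × (ι × Fin M → Bool), ∑ j,
        Real.exp (τ * dep fun y => evs (mv p.1 p.2 y) (ψ j)) ≤
      S * (((M : ℝ) ^ Fintype.card ι * 2 ^ Fintype.card (ι × Fin M)) * B) := by
    rw [sum_comm]
    calc ∑ j, ∑ p : (ι → Fin M) × (ι × Fin M → Bool),
          Real.exp (τ * dep fun y => evs (mv p.1 p.2 y) (ψ j))
        ≤ ∑ j : Fin S, ((M : ℝ) ^ Fintype.card ι * 2 ^ Fintype.card (ι × Fin M)) * B := by
          refine sum_le_sum fun j _ => ?_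
          rw [Fintype.sum_prod_type]
          exact hshr (ψ j) (hψ j)
      _ = S * (((M : ℝ) ^ Fintype.card ι * 2 ^ Fintype.card (ι × Fin M)) * B) := by
          rw [sum_const, nsmul_eq_mul]; simp
  have h4 : ((M : ℝ) ^ Fintype.card ι * 2 ^ Fintype.card (ι × Fin M)) *
      Real.exp (τ * (h + 1)) ≤
      ((M : ℝ) ^ Fintype.card ι * 2 ^ Fintype.card (ι × Fin M)) * (S * B) := by
    linarith
  have h5 := le_of_mul_le_mul_left h4 hMpos
  linarith

/-- the deterministic part -/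
theorem core (hconv : ConvProp) (hprog : ProgProp) (hexpa : ExpaProp) (hflip : FlipProp)
    (τ Cb : ℝ) (hτ : 0 < τ) (hCb : 0 < Cb)
    (hmom : ∀ (ι Jt : Type) [Fintype ι] [DecidableEq ι] [Fintype Jt] [DecidableEq Jt]
      [Nonempty ι] [Nonempty Jt] (ψ : T (ι × Jt) ⊕ Bool),
      ∑ J : ι → Jt, ∑ x : ι × Jt → Bool,
        Real.exp (τ * dep fun y => evs (mv J x y) ψ) ≤
      ((Fintype.card Jt : ℝ) ^ Fintype.card ι * 2 ^ Fintype.card (ι × Jt)) *
        Real.exp (Cb * leavess ψ / (Fintype.card Jt : ℝ) ^ (5 / 4 : ℝ) + τ))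
    (n d M s w a L h S : ℕ) (hn : 1 ≤ n) (hd : 3 * d ≤ n) (hM : 1 ≤ M)
    (hs : Fintype.card (Blk n (2 * d)) * (M + 2 * d + 4) + 1 ≤ s) (hw : n + s ≤ 2 ^ w)
    (ha : a ≤ 2 ^ d) (hah : 2 * ((a + 1) * h) ≤ 2 ^ d)
    (hS : (S : ℝ) * Real.exp (Cb * L / (M : ℝ) ^ (5 / 4 : ℝ) + τ) < Real.exp (τ * (h + 1)))
    (f : (Fin n → Bool) → Bool) (π : Refutation s w f a L S) : False := by
  obtain ⟨K, hK1, hK2, hK3, hK4⟩ := hprog n (2 * d) M hn
  obtain ⟨σ, hσ⟩ := hconv _ n s w K hK1 hK2 (hK3.trans hs) hw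
  have : NeZero M := ⟨by omega⟩
  have hne : Nonempty (Blk n (2 * d)) := by
    obtain ⟨S, hS⟩ := exists_subset_card_eq (s := (univ : Finset (Fin n))) (n := 2 * d)
      (by rw [card_univ, Fintype.card_fin]; omega)
    exact ⟨⟨(S, ∅), hS.2, empty_subset _⟩⟩
  have hMR : (0 : ℝ) < (M : ℝ) ^ (5 / 4 : ℝ) :=
    Real.rpow_pos_of_pos (by exact_mod_cast hM) _
  obtain ⟨J, x, hdep⟩ := exists_restr (ι := Blk n (2 * d)) (M := M) τ
    (Real.exp (Cb * L / (M : ℝ) ^ (5 / 4 : ℝ) + τ)) hτ hM L (by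
      intro ψ hψ
      have h1 := hmom (Blk n (2 * d)) (Fin M) ψ
      rw [Fintype.card_fin] at h1
      refine h1.trans ?_
      apply mul_le_mul_of_nonneg_left _ (by positivity)
      apply Real.exp_le_exp.mpr
      have e1 : (leavess ψ : ℝ) ≤ (L : ℝ) := by exact_mod_cast hψ
      have e3 : Cb * leavess ψ ≤ Cb * (L : ℝ) := mul_le_mul_of_nonneg_left e1 hCb.le
      have e4 := div_le_div_of_nonneg_right e3 hMR.le
      linarith) h (fun j => conv σ true (π.line j))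
      (fun j => (leavess_conv _ _ _).trans (π.size_le j)) hS
  have hfl := hflip n (2 * d) M J x
  obtain ⟨j, hj⟩ := π.final
  obtain ⟨y, hy⟩ := loc (hexpa n d hd)
    (con := fun v y => parV v (mv J x y) = f v)
    (by
      intro v y y' hyy
      rw [(hfl v).1 y y' hyy])
    (by
      intro v i hi y
      rw [(hfl v).2 i hi y]
      cases parV v (mv J x y) <;> cases f v <;> simp)
    a h ha hah S (fun j y => evs (mv J x y) (conv σ true (π.line j))) hdep
    (by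
      intro j
      obtain ⟨P, Q, hP1, hQ1, hP2, hP3⟩ := π.sound j
      refine ⟨P, Q, hP1, hQ1, hP2, fun y hy hyQ => ?_⟩
      rw [evs_conv, hP3 _ (fun p hp => ?_) (fun v hv => ?_)]
      · rfl
      · have := hy p hp
        rw [evs_conv] at this
        simpa using this
      · refine ⟨(hσ (mv J x y)).1, ?_⟩
        rw [(hσ (mv J x y)).2, hK4]
        exact hyQ v hv) j
  rw [evs_conv, hj] at hy
  exact absurd hy (by decide)

theorem ev_num (δ γ τ Cb : ℝ) (hδ : 0 < δ) (hγ : 0 < γ) (hτ : 0 < τ) :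
    ∃ n0 : ℕ, ∀ n ≥ n0, 1 ≤ n ∧ 2 * (2 * (n : ℝ) + 5) * (2 : ℝ) ^ (δ / 10 * n) ≤ 2 ^ (δ * n) ∧
      4 / 3 ≤ γ * n ∧ 8 / τ * (1 + 6 * Cb + τ) ≤ ((2 : ℝ) ^ (γ * n / 4)) ^ 2 := by
  have hl2 : 0 < Real.log 2 := Real.log_pos (by norm_num)
  -- first: 2(2n+5) ≤ 2^(0.9 δ n)
  have t1 : Filter.Tendsto (fun n : ℕ => (2 : ℝ) ^ (9 / 10 * δ * n) / (n : ℝ)) Filter.atTop
      Filter.atTop := by
    have h1 : Filter.Tendsto (fun x : ℝ => Real.exp (9 / 10 * δ * Real.log 2 * x) / x ^ (1 : ℝ))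
        Filter.atTop Filter.atTop :=
      tendsto_exp_mul_div_rpow_atTop 1 _ (by positivity)
    have h2 := h1.comp tendsto_natCast_atTop_atTop
    refine h2.congr fun n => ?_
    simp only [Function.comp, Real.rpow_one]
    congr 1
    rw [Real.rpow_def_of_pos (by norm_num)]
    congr 1
    ring
  have t2 : Filter.Tendsto (fun n : ℕ => (2 : ℝ) ^ (γ * n / 4)) Filter.atTop Filter.atTop := by
    have h1 : Filter.Tendsto (fun n : ℕ => Real.exp (γ / 4 * Real.log 2 * (n : ℝ))) Filter.atTop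
        Filter.atTop := by
      apply Real.tendsto_exp_atTop.comp
      apply Filter.Tendsto.const_mul_atTop (by positivity)
      exact tendsto_natCast_atTop_atTop
    refine h1.congr fun n => ?_
    rw [Real.rpow_def_of_pos (by norm_num)]
    congr 1
    ring
  obtain ⟨n1, h1⟩ := Filter.eventually_atTop.mp (t1.eventually_ge_atTop 14)
  obtain ⟨n2, h2⟩ := Filter.eventually_atTop.mp
    (t2.eventually_ge_atTop (max 1 (8 / τ * (1 + 6 * Cb + τ))))
  obtain ⟨n3, h3⟩ := exists_nat_ge (4 / 3 / γ)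
  refine ⟨max (max n1 n2) (max n3 1), fun n hn => ?_⟩
  have hn1 : n1 ≤ n := le_trans (le_trans (le_max_left _ _) (le_max_left _ _)) hn
  have hn2 : n2 ≤ n := le_trans (le_trans (le_max_right _ _) (le_max_left _ _)) hn
  have hn3 : n3 ≤ n := le_trans (le_trans (le_max_left _ _) (le_max_right _ _)) hn
  have hn4 : 1 ≤ n := le_trans (le_trans (le_max_right _ _) (le_max_right _ _)) hn
  have hnR : (1 : ℝ) ≤ n := by exact_mod_cast hn4
  refine ⟨hn4, ?_, ?_, ?_⟩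
  · have e1 := h1 n hn1
    rw [le_div_iff₀ (by linarith)] at e1
    have e2 : 2 * (2 * (n : ℝ) + 5) ≤ (2 : ℝ) ^ (9 / 10 * δ * n) := by linarith
    calc 2 * (2 * (n : ℝ) + 5) * (2 : ℝ) ^ (δ / 10 * n)
        ≤ (2 : ℝ) ^ (9 / 10 * δ * n) * (2 : ℝ) ^ (δ / 10 * n) :=
          mul_le_mul_of_nonneg_right e2 (by positivity)
      _ = (2 : ℝ) ^ (δ * n) := by
          rw [← Real.rpow_add (by norm_num)]
          congr 1
          ring
  · have e1 : (n3 : ℝ) ≤ n := by exact_mod_cast hn3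
    have e2 := h3.trans e1
    rw [div_le_iff₀ hγ] at e2
    linarith
  · have e1 := h2 n hn2
    have e2 : (1 : ℝ) ≤ (2 : ℝ) ^ (γ * n / 4) := (le_max_left _ _).trans e1
    have e3 : 8 / τ * (1 + 6 * Cb + τ) ≤ (2 : ℝ) ^ (γ * n / 4) := (le_max_right _ _).trans e1
    nlinarith

theorem main (hconv : ConvProp) (hprog : ProgProp) (hexpa : ExpaProp) (hflip : FlipProp)
    (hcard : CardProp) (hnum : NumProp) (δ : ℝ) (hδ : 0 < δ) :
    ∃ ε : ℝ, 0 < ε ∧ ∃ n0 : ℕ, ∀ n ≥ n0, ∀ s w : ℕ, (2 : ℝ) ^ (δ * n) ≤ s → s ≤ 2 ^ n →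
      n + s ≤ 2 ^ w → ∀ (f : (Fin n → Bool) → Bool) (a L S : ℕ), (a : ℝ) ≤ (s : ℝ) ^ ε →
        (L : ℝ) ≤ (s : ℝ) ^ (1 + ε) → Nonempty (Refutation s w f a L S) →
          (2 : ℝ) ^ ((s : ℝ) ^ ε) ≤ S := by
  obtain ⟨τ, Cb, hτ, _, hCb, hmom⟩ := block_moment (5 / 4) (by norm_num) (by norm_num)
  obtain ⟨γ, hγ, hγ3, hγn⟩ := hnum (δ / 10) (by positivity)
  obtain ⟨ε, hε⟩ : ∃ ε, ε = min (1 / 8) (γ / 4) := ⟨_, rfl⟩
  have hε0 : 0 < ε := by rw [hε]; exact lt_min (by norm_num) (by positivity)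
  have hε8 : ε ≤ 1 / 8 := by rw [hε]; exact min_le_left _ _
  have hεγ : ε ≤ γ / 4 := by rw [hε]; exact min_le_right _ _
  obtain ⟨n0, hn0⟩ := ev_num δ γ τ Cb hδ hγ hτ
  refine ⟨ε, hε0, n0, fun n hn s w hs1 hs2 hw f a L S ha hL ⟨π⟩ => ?_⟩
  obtain ⟨hn1, c1, c2, c3⟩ := hn0 n hn
  by_contra hS
  push Not at hS
  have hnR : (1 : ℝ) ≤ n := by exact_mod_cast hn1
  obtain ⟨d, hd⟩ : ∃ d, d = ⌊γ * n⌋₊ := ⟨_, rfl⟩
  have hd1 : (d : ℝ) ≤ γ * n := by rw [hd]; exact Nat.floor_le (by positivity)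
  have hd2 : γ * n < d + 1 := by rw [hd]; exact Nat.lt_floor_add_one _
  have hd3 : 3 * d ≤ n := by
    have : (3 * d : ℝ) ≤ n := by nlinarith
    exact_mod_cast this
  obtain ⟨nb, hnb⟩ : ∃ nb, nb = Fintype.card (Blk n (2 * d)) := ⟨_, rfl⟩
  have hnb2 : (nb : ℝ) ≤ (2 : ℝ) ^ (δ / 10 * n) := by
    rw [hnb, hcard]
    apply hγn
    push_cast
    linarith
  have hnb1 : 1 ≤ nb := by
    rw [hnb, hcard]
    have : 0 < n.choose (2 * d) := Nat.choose_pos (by omega)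
    exact Nat.mul_pos this (by positivity)
  have hnbR : (1 : ℝ) ≤ nb := by exact_mod_cast hnb1
  have hsR : (0 : ℝ) < s := lt_of_lt_of_le (by positivity) hs1
  have hdn : (2 * (d : ℝ)) ≤ n := by
    have : (3 * d : ℝ) ≤ n := by exact_mod_cast hd3
    have : (0 : ℝ) ≤ d := by positivity
    linarith
  -- the size of the blocks
  have k1 : 2 * (2 * (d : ℝ) + 5) * nb ≤ s := by
    calc 2 * (2 * (d : ℝ) + 5) * nb ≤ 2 * (2 * (n : ℝ) + 5) * (2 : ℝ) ^ (δ / 10 * n) := by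
          apply mul_le_mul _ hnb2 (by positivity) (by positivity)
          have : (0 : ℝ) ≤ n := by positivity
          linarith
      _ ≤ 2 ^ (δ * n) := c1
      _ ≤ s := hs1
  have k2 : 2 * (2 * d + 5) * nb ≤ s := by exact_mod_cast k1
  obtain ⟨M, hM⟩ : ∃ M, M = s / (2 * nb) := ⟨_, rfl⟩
  have hM2 : M * (2 * nb) ≤ s := by rw [hM]; exact Nat.div_mul_le_self _ _
  have hM3 : s < 2 * nb * (M + 1) := by rw [hM]; exact Nat.lt_mul_div_succ s (by omega)
  have hM1 : 1 ≤ M := by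
    rw [hM, Nat.le_div_iff_mul_le (by omega)]
    nlinarith
  have hMs : nb * (M + 2 * d + 4) + 1 ≤ s := by nlinarith
  have hM4 : (s : ℝ) / (4 * nb) ≤ M := by
    rw [div_le_iff₀ (by positivity)]
    have h1 : (s : ℝ) < 2 * nb * (M + 1) := by exact_mod_cast hM3
    have h2 : (1 : ℝ) ≤ M := by exact_mod_cast hM1
    nlinarith
  -- a, h
  have hsn : (s : ℝ) ≤ (2 : ℝ) ^ (n : ℝ) := by
    rw [Real.rpow_natCast]
    exact_mod_cast hs2
  have hsε : (s : ℝ) ^ ε ≤ (2 : ℝ) ^ (γ * n / 4) := by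
    calc (s : ℝ) ^ ε ≤ ((2 : ℝ) ^ (n : ℝ)) ^ ε := Real.rpow_le_rpow hsR.le hsn hε0.le
      _ = (2 : ℝ) ^ (n * ε) := by rw [← Real.rpow_mul (by norm_num)]
      _ ≤ (2 : ℝ) ^ (γ * n / 4) := by
          apply Real.rpow_le_rpow_of_exponent_le (by norm_num)
          nlinarith
  obtain ⟨X, hX⟩ : ∃ X : ℝ, X = (2 : ℝ) ^ (γ * n / 4) := ⟨_, rfl⟩
  rw [← hX] at hsε c3
  have hX1 : 1 ≤ X := by
    rw [hX]
    exact Real.one_le_rpow (by norm_num) (by positivity)
  have h2d : X ^ 4 / 2 ≤ (2 : ℝ) ^ d := by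
    have e1 : X ^ 4 = (2 : ℝ) ^ (γ * n) := by
      rw [hX, ← Real.rpow_natCast, ← Real.rpow_mul (by norm_num)]
      congr 1
      push_cast
      ring
    rw [e1, ← Real.rpow_natCast 2 d, div_le_iff₀ (by norm_num)]
    have e2 : (2 : ℝ) ^ (d : ℝ) * 2 = (2 : ℝ) ^ ((d : ℝ) + 1) := by
      rw [Real.rpow_add (by norm_num), Real.rpow_one]
    rw [e2]
    exact Real.rpow_le_rpow_of_exponent_le (by norm_num) hd2.le
  have haX : (a : ℝ) ≤ X := ha.trans hsε
  have ha2 : a ≤ 2 ^ d := by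
    have e1 : X ≤ (2 : ℝ) ^ d := by
      rw [hX, ← Real.rpow_natCast]
      apply Real.rpow_le_rpow_of_exponent_le (by norm_num)
      linarith
    have : (a : ℝ) ≤ ((2 ^ d : ℕ) : ℝ) := by
      push_cast
      exact haX.trans e1
    exact_mod_cast this
  obtain ⟨h, hh⟩ : ∃ h, h = 2 ^ d / (2 * (a + 1)) := ⟨_, rfl⟩
  have hah : 2 * ((a + 1) * h) ≤ 2 ^ d := by
    rw [hh]
    calc 2 * ((a + 1) * (2 ^ d / (2 * (a + 1)))) = 2 ^ d / (2 * (a + 1)) * (2 * (a + 1)) := by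
          ring
      _ ≤ _ := Nat.div_mul_le_self _ _
  have hh2 : (2 : ℝ) ^ d < 2 * (a + 1) * (h + 1) := by
    have e1 : 2 ^ d < 2 * (a + 1) * (h + 1) := by
      rw [hh]
      exact Nat.lt_mul_div_succ _ (by omega)
    exact_mod_cast e1
  have hh3 : X ^ 3 / 8 ≤ (h : ℝ) + 1 := by
    have e1 : 2 * ((a : ℝ) + 1) ≤ 4 * X := by linarith
    have e2 : (0 : ℝ) < h + 1 := by positivity
    have e3 : X ^ 4 / 2 ≤ 4 * X * (h + 1) := by
      refine h2d.trans (hh2.le.trans ?_)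
      exact mul_le_mul_of_nonneg_right e1 e2.le
    have e4 : X * (X ^ 3 / 8) ≤ X * ((h : ℝ) + 1) := by nlinarith
    exact le_of_mul_le_mul_left e4 (by linarith)
  -- the moment
  have hLM : (L : ℝ) / (M : ℝ) ^ (5 / 4 : ℝ) ≤ 6 := by
    have hMpos : (0 : ℝ) < M := by exact_mod_cast hM1
    rw [div_le_iff₀ (Real.rpow_pos_of_pos hMpos _)]
    have e1 : ((s : ℝ) / (4 * nb)) ^ (5 / 4 : ℝ) ≤ (M : ℝ) ^ (5 / 4 : ℝ) :=
      Real.rpow_le_rpow (by positivity) hM4 (by norm_num)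
    have e2 : (L : ℝ) ≤ 6 * ((s : ℝ) / (4 * nb)) ^ (5 / 4 : ℝ) := by
      refine hL.trans ?_
      rw [Real.div_rpow hsR.le (by positivity), Real.mul_rpow (by norm_num) (by positivity)]
      rw [mul_div_assoc', le_div_iff₀ (by positivity)]
      have f1 : (nb : ℝ) ^ (5 / 4 : ℝ) ≤ (s : ℝ) ^ (1 / 8 : ℝ) := by
        calc (nb : ℝ) ^ (5 / 4 : ℝ) ≤ ((2 : ℝ) ^ (δ / 10 * n)) ^ (5 / 4 : ℝ) :=
              Real.rpow_le_rpow (by positivity) hnb2 (by norm_num)
          _ = ((2 : ℝ) ^ (δ * n)) ^ (1 / 8 : ℝ) := by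
              rw [← Real.rpow_mul (by norm_num), ← Real.rpow_mul (by norm_num)]
              congr 1
              ring
          _ ≤ (s : ℝ) ^ (1 / 8 : ℝ) := Real.rpow_le_rpow (by positivity) hs1 (by norm_num)
      have f2 : (4 : ℝ) ^ (5 / 4 : ℝ) ≤ 6 := by
        have g1 : ((4 : ℝ) ^ (5 / 4 : ℝ)) ^ (4 : ℕ) = 4 ^ (5 : ℕ) := by
          rw [← Real.rpow_natCast, ← Real.rpow_mul (by norm_num)]
          norm_num
        by_contra hcon
        push Not at hcon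
        have g2 : (6 : ℝ) ^ 4 < ((4 : ℝ) ^ (5 / 4 : ℝ)) ^ 4 :=
          pow_lt_pow_left₀ hcon (by norm_num) (by norm_num)
        rw [g1] at g2
        norm_num at g2
      have hs1' : (1 : ℝ) ≤ s := by
        refine le_trans ?_ hs1
        exact Real.one_le_rpow (by norm_num) (by positivity)
      calc (s : ℝ) ^ (1 + ε) * ((4 : ℝ) ^ (5 / 4 : ℝ) * (nb : ℝ) ^ (5 / 4 : ℝ))
          ≤ (s : ℝ) ^ (1 + ε) * (6 * (s : ℝ) ^ (1 / 8 : ℝ)) := by
            apply mul_le_mul_of_nonneg_left _ (by positivity)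
            exact mul_le_mul f2 f1 (by positivity) (by norm_num)
        _ = 6 * (s : ℝ) ^ (1 + ε + 1 / 8) := by
            rw [Real.rpow_add hsR (1 + ε) (1 / 8)]
            ring
        _ ≤ 6 * (s : ℝ) ^ (5 / 4 : ℝ) := by
            apply mul_le_mul_of_nonneg_left _ (by norm_num)
            exact Real.rpow_le_rpow_of_exponent_le hs1' (by linarith)
    exact e2.trans (mul_le_mul_of_nonneg_left e1 (by norm_num))
  refine core hconv hprog hexpa hflip τ Cb hτ hCb hmom n d M s w a L h S hn1 hd3 hM1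
    (by rw [← hnb]; exact hMs) hw ha2 hah ?_ f π
  have e1 : (S : ℝ) < Real.exp X := by
    refine hS.trans_le ?_
    calc (2 : ℝ) ^ ((s : ℝ) ^ ε) ≤ (Real.exp 1) ^ ((s : ℝ) ^ ε) := by
          apply Real.rpow_le_rpow (by norm_num) _ (by positivity)
          have := Real.add_one_le_exp (1 : ℝ)
          linarith
      _ = Real.exp ((s : ℝ) ^ ε) := by rw [← Real.exp_mul, one_mul]
      _ ≤ Real.exp X := Real.exp_le_exp.mpr hsε
  calc (S : ℝ) * Real.exp (Cb * L / (M : ℝ) ^ (5 / 4 : ℝ) + τ)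
      < Real.exp X * Real.exp (Cb * L / (M : ℝ) ^ (5 / 4 : ℝ) + τ) :=
        mul_lt_mul_of_pos_right e1 (Real.exp_pos _)
    _ = Real.exp (X + (Cb * L / (M : ℝ) ^ (5 / 4 : ℝ) + τ)) := (Real.exp_add _ _).symm
    _ ≤ Real.exp (τ * (h + 1)) := by
        apply Real.exp_le_exp.mpr
        have g1 : Cb * L / (M : ℝ) ^ (5 / 4 : ℝ) ≤ 6 * Cb := by
          rw [mul_div_assoc]
          nlinarith
        have g2 : X + 6 * Cb + τ ≤ τ * (X ^ 3 / 8) := by
          rw [div_mul_eq_mul_div, div_le_iff₀ hτ] at c3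
          have g3 : X * (8 * (1 + 6 * Cb + τ)) ≤ X * (X ^ 2 * τ) :=
            mul_le_mul_of_nonneg_left c3 (by linarith)
          nlinarith
        have g4 : τ * (X ^ 3 / 8) ≤ τ * ((h : ℝ) + 1) := mul_le_mul_of_nonneg_left hh3 hτ.le
        linarith

end H542.MC
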