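import Mathlib
import Pool.Agent.H542R2.MC.Main
import Pool.Agent.H542R2.MC.M_CONV
import Pool.Agent.H542R2.MC.M_PROG
import Pool.Agent.H542R2.MC.M_ISOL
import Pool.Agent.H542R2.MC.M_EXPA
import Pool.Agent.H542R2.MC.M_CARD
import Pool.Agent.H542R2.MC.M_NUM
import Pool.Agent.H542R2.MC.M_FLIP
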